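import Mathlib

open Finset

namespace Pool.Agent.Results.MP_7b51c2_an.Fails

/-- The weight `γ_{k+1} = 8^(k+1) / (1 + 8^(k+1))` (coordinates are indexed from `0`). -/
noncomputable def gam (k : ℕ) : ℝ := 8 ^ (k + 1) / (1 + 8 ^ (k + 1))

/-- The norm of Lin on absolutely summable sequences. -/
noncomputable def lin (x : ℕ → ℝ) : ℝ := ⨆ k : ℕ, gam k * ∑' n, |x (n + k)|

/-- The closed unit ball of `ℓ₁` for the norm of Lin. -/
def B : Set (ℕ → ℝ) := {x | Summable (fun n => |x n|) ∧ lin x ≤ 1}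

noncomputable def N (x : ℕ → ℝ) : ℝ := ∑' n, |x n|

def Bd (x : ℕ → ℝ) (a : ℝ) : Prop := Summable (fun n => |x n|) ∧ N x ≤ a

lemma N_nonneg (x : ℕ → ℝ) : 0 ≤ N x := tsum_nonneg fun _ => abs_nonneg _

lemma gam_le (k : ℕ) : 0 ≤ gam k ∧ gam k ≤ 1 := by
  unfold gam
  constructor
  · positivity
  · rw [div_le_one (by positivity)]; linarith

lemma term_le {x : ℕ → ℝ} (hx : Summable (fun n => |x n|)) (k : ℕ) :
    gam k * ∑' n, |x (n + k)| ≤ N x := by
  have h1 := hx.sum_add_tsum_nat_add k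
  have h2 : 0 ≤ ∑ i ∈ range k, |x i| := sum_nonneg fun _ _ => abs_nonneg _
  have h3 : 0 ≤ ∑' n, |x (n + k)| := tsum_nonneg fun _ => abs_nonneg _
  have := gam_le k
  unfold N
  nlinarith

lemma lin_le {x : ℕ → ℝ} {a : ℝ} (hx : Bd x a) : lin x ≤ a :=
  (ciSup_le (term_le hx.1)).trans hx.2

lemma le_lin {x : ℕ → ℝ} (hx : Summable (fun n => |x n|)) : N x ≤ 9 / 8 * lin x := by
  have h := le_ciSup (f := fun k => gam k * ∑' n, |x (n + k)|)
    ⟨N x, by rintro _ ⟨k, rfl⟩; exact term_le hx k⟩ 0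
  have h0 : gam 0 = 8 / 9 := by norm_num [gam]
  simp only [add_zero, h0] at h
  unfold lin N
  linarith

lemma Bd.of_le {x y : ℕ → ℝ} {a : ℝ} (hy : Bd y a) (h : ∀ n, |x n| ≤ |y n|) : Bd x a := by
  have hs : Summable (fun n => |x n|) := Summable.of_nonneg_of_le (fun _ => abs_nonneg _) h hy.1
  exact ⟨hs, (hs.tsum_le_tsum h hy.1).trans hy.2⟩

lemma Bd.mono {x : ℕ → ℝ} {a b : ℝ} (hx : Bd x a) (h : a ≤ b) : Bd x b := ⟨hx.1, hx.2.trans h⟩

lemma Bd.add {x y : ℕ → ℝ} {a b : ℝ} (hx : Bd x a) (hy : Bd y b) : Bd (x + y) (a + b) := by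
  have h : ∀ n, |(x + y) n| ≤ |x n| + |y n| := fun n => abs_add_le _ _
  have hs : Summable (fun n => |(x + y) n|) :=
    Summable.of_nonneg_of_le (fun _ => abs_nonneg _) h (hx.1.add hy.1)
  refine ⟨hs, (hs.tsum_le_tsum h (hx.1.add hy.1)).trans ?_⟩
  rw [hx.1.tsum_add hy.1]
  exact add_le_add hx.2 hy.2

lemma Bd.smul {x : ℕ → ℝ} {a : ℝ} (hx : Bd x a) (c : ℝ) : Bd (c • x) (|c| * a) := by
  have h : (fun n => |(c • x) n|) = fun n => |c| * |x n| := by
    ext n; simp [abs_mul]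
  unfold Bd N
  rw [h, tsum_mul_left]
  exact ⟨hx.1.mul_left _, mul_le_mul_of_nonneg_left hx.2 (abs_nonneg _)⟩

lemma Bd.sum {s : Finset ℕ} {u : ℕ → ℕ → ℝ} {a : ℕ → ℝ} (h : ∀ k ∈ s, Bd (u k) (a k)) :
    Bd (∑ k ∈ s, u k) (∑ k ∈ s, a k) := by
  induction s using Finset.induction_on with
  | empty => simp [Bd, N, summable_zero]
  | insert k s hk ih =>
    rw [sum_insert hk, sum_insert hk]
    exact (h k (mem_insert_self _ _)).add (ih fun j hj => h j (mem_insert_of_mem hj))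

def S : Module.End ℝ (ℕ → ℝ) where
  toFun y n := Nat.casesOn n 0 fun m => y m
  map_add' x y := by ext n; cases n <;> simp
  map_smul' c x := by ext n; cases n <;> simp

lemma S_zero (y : ℕ → ℝ) : S y 0 = 0 := rfl
lemma S_succ (y : ℕ → ℝ) (n : ℕ) : S y (n + 1) = y n := rfl

lemma S_hasSum {y : ℕ → ℝ} {a : ℝ} (h : HasSum y a) : HasSum (S y) a := by
  rw [← hasSum_nat_add_iff' 1]
  simpa [S_zero, S_succ] using h

lemma Bd.S {x : ℕ → ℝ} {a : ℝ} (hx : Bd x a) : Bd (S x) a := by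
  have h := S_hasSum hx.1.hasSum
  have h2 : Fails.S (fun n => |x n|) = fun n => |Fails.S x n| := by
    ext n; cases n <;> simp [S_zero, S_succ]
  rw [h2] at h
  exact ⟨h.summable, h.tsum_eq.le.trans hx.2⟩

lemma Bd.Spow {x : ℕ → ℝ} {a : ℝ} (hx : Bd x a) (k : ℕ) : Bd ((Fails.S ^ k) x) a := by
  induction k with
  | zero => simpa using hx
  | succ k ih => rw [pow_succ', Module.End.mul_apply]; exact ih.S

noncomputable def A : Module.End ℝ (ℕ → ℝ) := (1 / 2 : ℝ) • (S + 1)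

lemma A_apply (y : ℕ → ℝ) : A y = (1 / 2 : ℝ) • (S y + y) := rfl

lemma Bd.A {x : ℕ → ℝ} {a : ℝ} (hx : Bd x a) : Bd (A x) a := by
  rw [A_apply]
  refine ((hx.S.add hx).smul _).mono (le_of_eq ?_)
  rw [abs_of_pos (by norm_num)]; ring

lemma A_pow (n m : ℕ) (h : n + 1 ≤ m) (y : ℕ → ℝ) :
    (A ^ n) y = ∑ k ∈ range m, ((n.choose k : ℝ) * (1 / 2) ^ n) • (S ^ k) y := by
  rw [← sum_subset (range_subset_range.2 h)]
  · rw [A, smul_pow, (Commute.one_right S).add_pow, LinearMap.smul_apply, LinearMap.sum_apply,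
      smul_sum]
    refine sum_congr rfl fun k _ => ?_
    rw [one_pow, mul_one, Module.End.mul_apply, Module.End.natCast_apply, map_nsmul,
      ← Nat.cast_smul_eq_nsmul ℝ, smul_smul, mul_comm]
  · intro k _ hk
    rw [Nat.choose_eq_zero_of_lt (by simp at hk; omega)]; simp

lemma coef (n : ℕ) (δ : ℝ) (hδ : 0 < δ) :
    ∑ k ∈ range (n + 2), |(n.choose k : ℝ) * (1 / 2) ^ n - ((n + 1).choose k : ℝ) * (1 / 2) ^ (n + 1)|
      ≤ δ + 1 / (δ * (n + 1)) := by
  let x : unitInterval := ⟨1 / 2, by norm_num, by norm_num⟩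
  have hv := bernstein.variance (n := n + 1) (Nat.succ_ne_zero n) x
  have hp := bernstein.probability (n + 1) x
  have hb : ∀ k : Fin (n + 1 + 1), bernstein (n + 1) k x =
      ((n + 1).choose k : ℝ) * (1 / 2) ^ (n + 1) := by
    intro k
    have hk : (k : ℕ) + (n + 1 - k) = n + 1 := by have := k.2; omega
    rw [bernstein_apply, mul_assoc]
    have : (1 : ℝ) - x = 1 / 2 := by norm_num [x]
    rw [this, ← pow_add, hk]
  rw [← Fin.sum_univ_eq_sum_range
    (fun k => |(n.choose k : ℝ) * (1 / 2) ^ n - ((n + 1).choose k : ℝ) * (1 / 2) ^ (n + 1)|)]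
  have hn : (0 : ℝ) < n + 1 := by positivity
  have key : ∀ k : Fin (n + 1 + 1),
      |(n.choose k : ℝ) * (1 / 2) ^ n - ((n + 1).choose k : ℝ) * (1 / 2) ^ (n + 1)| ≤
      δ * bernstein (n + 1) k x + 4 / δ * (((x : ℝ) - bernstein.z k) ^ 2 * bernstein (n + 1) k x) := by
    intro k
    have hc : (n.choose k : ℝ) * (n + 1) = ((n + 1).choose k : ℝ) * (n + 1 - k) := by
      have h1 := Nat.choose_mul_succ_eq n k
      have h2 : (k : ℕ) ≤ n + 1 := by have := k.2; omega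
      have h3 := congrArg (Nat.cast : ℕ → ℝ) h1
      push_cast [Nat.cast_sub h2] at h3
      exact h3
    have hz : ((bernstein.z k : unitInterval) : ℝ) = k / (n + 1) := by simp [bernstein.z]
    set t : ℝ := (x : ℝ) - bernstein.z k with ht
    have he : (n.choose k : ℝ) * (1 / 2) ^ n - ((n + 1).choose k : ℝ) * (1 / 2) ^ (n + 1) =
        2 * t * bernstein (n + 1) k x := by
      have hx : (x : ℝ) = 1 / 2 := rfl
      have : (n.choose k : ℝ) = ((n + 1).choose k : ℝ) * (n + 1 - k) / (n + 1) := by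
        rw [eq_div_iff hn.ne', hc]
      rw [hb, ht, hz, hx, this, pow_succ]
      field_simp
      ring
    have hb0 : 0 ≤ bernstein (n + 1) k x := bernstein_nonneg
    rw [he, abs_mul, abs_of_nonneg hb0]
    have : |2 * t| ≤ δ + 4 / δ * t ^ 2 := by
      have h1 : 4 / δ * t ^ 2 = |2 * t| ^ 2 / δ := by rw [sq_abs]; ring
      rw [h1]
      have h2 : 0 ≤ |2 * t| := abs_nonneg _
      generalize |2 * t| = s at *
      rw [← sub_nonneg]
      have : δ + s ^ 2 / δ - s = ((δ - s) ^ 2 + δ * s) / δ := by field_simp; ring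
      rw [this]; positivity
    nlinarith
  refine (sum_le_sum fun k _ => key k).trans (le_of_eq ?_)
  rw [sum_add_distrib, ← mul_sum, ← mul_sum, hp, hv]
  have hx : (x : ℝ) = 1 / 2 := rfl
  rw [hx]
  push_cast
  field_simp
  ring

lemma reg (n : ℕ) (δ : ℝ) (hδ : 0 < δ) {y : ℕ → ℝ} (hy : Bd y 1) :
    Bd ((A ^ n) y - (A ^ (n + 1)) y) (δ + 1 / (δ * (n + 1))) := by
  rw [A_pow n (n + 2) (by omega), A_pow (n + 1) (n + 2) (by omega), ← sum_sub_distrib]
  refine Bd.mono (Bd.sum (a := fun k => |(n.choose k : ℝ) * (1 / 2) ^ n -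
    ((n + 1).choose k : ℝ) * (1 / 2) ^ (n + 1)|) fun k _ => ?_) (coef n δ hδ)
  rw [← sub_smul]
  simpa using (hy.Spow k).smul _

def K : Set (ℕ → ℝ) := {y | (∀ n, 0 ≤ y n) ∧ HasSum y 1}

lemma K_abs {y : ℕ → ℝ} (hy : y ∈ K) : (fun n => |y n|) = y := by
  ext n; exact abs_of_nonneg (hy.1 n)

lemma K_N {y : ℕ → ℝ} (hy : y ∈ K) : N y = 1 := by
  unfold N; rw [K_abs hy]; exact hy.2.tsum_eq

lemma K_Bd {y : ℕ → ℝ} (hy : y ∈ K) : Bd y 1 :=
  ⟨by rw [K_abs hy]; exact hy.2.summable, (K_N hy).le⟩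

lemma K_A {y : ℕ → ℝ} (hy : y ∈ K) : A y ∈ K := by
  rw [A_apply]
  constructor
  · intro n
    have h1 : 0 ≤ S y n := by
      cases n with
      | zero => exact le_rfl
      | succ m => exact hy.1 m
    have := hy.1 n
    simp only [Pi.smul_apply, Pi.add_apply, smul_eq_mul]
    positivity
  · have := ((S_hasSum hy.2).add hy.2).mul_left (1 / 2)
    rw [show (1 / 2 : ℝ) * (1 + 1) = 1 by norm_num] at this
    exact this

noncomputable def lam (s : ℝ) : ℝ := min 1 (9 - 8 * s)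

noncomputable def e0 : ℕ → ℝ := Pi.single 0 1

lemma e0_K : e0 ∈ K := by
  constructor
  · intro n; unfold e0; rw [Pi.single_apply]; split_ifs <;> norm_num
  · exact hasSum_pi_single 0 1

noncomputable def R (x : ℕ → ℝ) : ℕ → ℝ :=
  lam (N x) • (fun n => |x n|) + (1 - lam (N x) * N x) • e0

lemma R_K {y : ℕ → ℝ} (hy : y ∈ K) : R y = y := by
  unfold R
  rw [K_N hy, K_abs hy]
  norm_num [lam]

lemma lam_facts {s : ℝ} (h0 : 0 ≤ s) (h1 : s ≤ 9 / 8) :
    0 ≤ lam s ∧ lam s ≤ 1 ∧ lam s * s ≤ 1 := by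
  unfold lam
  rcases le_total 1 (9 - 8 * s) with h | h
  · rw [min_eq_left h]; refine ⟨by norm_num, le_rfl, by linarith⟩
  · rw [min_eq_right h]; refine ⟨by linarith, h, by nlinarith⟩

lemma B_N {x : ℕ → ℝ} (hx : x ∈ B) : N x ≤ 9 / 8 := by
  have := le_lin hx.1
  have := hx.2
  linarith

lemma R_mem {x : ℕ → ℝ} (hx : x ∈ B) : R x ∈ K := by
  obtain ⟨h1, h2, h3⟩ := lam_facts (N_nonneg x) (B_N hx)
  constructor
  · intro n
    have := e0_K.1 n
    have h4 : 0 ≤ 1 - lam (N x) * N x := by linarith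
    simp only [R, Pi.add_apply, Pi.smul_apply, smul_eq_mul]
    positivity
  · have := (hx.1.hasSum.mul_left (lam (N x))).add (e0_K.2.mul_left (1 - lam (N x) * N x))
    rw [show lam (N x) * (∑' n, |x n|) + (1 - lam (N x) * N x) * 1 = 1 by unfold N; ring] at this
    exact this

lemma R_lip {x y : ℕ → ℝ} (hx : x ∈ B) (hy : y ∈ B) :
    Summable (fun n => |(x - y) n|) ∧ Bd (R x - R y) (20 * N (x - y)) := by
  have hxy : Bd (x - y) (N x + |(-1 : ℝ)| * N y) := by
    have := (show Bd x (N x) from ⟨hx.1, le_rfl⟩).add ((show Bd y (N y) from ⟨hy.1, le_rfl⟩).smul (-1))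
    simpa [sub_eq_add_neg] using this
  refine ⟨hxy.1, ?_⟩
  set D := N (x - y)
  have hD : Bd (x - y) D := ⟨hxy.1, le_rfl⟩
  have h1 : N x ≤ D + N y := by
    have := (hD.add (show Bd y (N y) from ⟨hy.1, le_rfl⟩)).2
    simpa using this
  have h2 : N y ≤ D + N x := by
    have := ((hD.smul (-1)).add (show Bd x (N x) from ⟨hx.1, le_rfl⟩)).2
    simpa using this
  obtain ⟨a1, a2, -⟩ := lam_facts (N_nonneg x) (B_N hx)
  have hl : |lam (N x) - lam (N y)| ≤ 8 * D := by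
    unfold lam
    refine (abs_min_sub_min_le_max _ _ _ _).trans (max_le ?_ ?_)
    · have := N_nonneg (x - y); simp; positivity
    · rw [abs_le]; constructor <;> linarith
  have hab : Bd ((fun n => |x n|) - fun n => |y n|) D :=
    hD.of_le fun n => abs_abs_sub_abs_le_abs_sub _ _
  have hy' : Bd (fun n => |y n|) (9 / 8) :=
    (show Bd y (9 / 8) from ⟨hy.1, B_N hy⟩).of_le fun n => by simp
  have he : R x - R y = lam (N x) • ((fun n => |x n|) - fun n => |y n|) +
      (lam (N x) - lam (N y)) • (fun n => |y n|) +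
      (lam (N x) * (N y - N x) - (lam (N x) - lam (N y)) * N y) • e0 := by
    ext n; simp only [R, Pi.add_apply, Pi.sub_apply, Pi.smul_apply, smul_eq_mul]; ring
  rw [he]
  refine (((hab.smul _).add (hy'.smul _)).add ((K_Bd e0_K).smul _)).mono ?_
  have hD0 : 0 ≤ D := N_nonneg _
  have hy0 := N_nonneg y
  have hy1 := B_N hy
  have h3 : |lam (N x) * (N y - N x) - (lam (N x) - lam (N y)) * N y| ≤ 10 * D := by
    refine (abs_sub _ _).trans ?_
    rw [abs_mul, abs_mul, abs_of_nonneg a1, abs_of_nonneg hy0]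
    have h4 : |N y - N x| ≤ D := by rw [abs_le]; constructor <;> linarith
    have h5 := abs_nonneg (N y - N x)
    have h6 := abs_nonneg (lam (N x) - lam (N y))
    nlinarith
  rw [abs_of_nonneg a1]
  nlinarith

lemma iter {y : ℕ → ℝ} (hy : y ∈ K) (n : ℕ) :
    (fun x => A (R x))^[n] y = (A ^ n) y ∧ (A ^ n) y ∈ K := by
  induction n with
  | zero => exact ⟨rfl, hy⟩
  | succ n ih =>
    rw [Function.iterate_succ_apply', ih.1, R_K ih.2, pow_succ', Module.End.mul_apply]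
    exact ⟨rfl, K_A ih.2⟩

theorem result : ∃ T : (ℕ → ℝ) → (ℕ → ℝ), Set.MapsTo T B B ∧
    (∃ L : ℝ, ∀ x ∈ B, ∀ y ∈ B, lin (T x - T y) ≤ L * lin (x - y)) ∧
    (∀ ε > 0, ∃ n₀ : ℕ, ∀ n ≥ n₀, ∀ x ∈ B, lin (T^[n] x - T^[n + 1] x) ≤ ε) ∧
    ∀ x ∈ B, T x ≠ x := by
  refine ⟨fun x => A (R x), ?_, ⟨20 * (9 / 8), ?_⟩, ?_, ?_⟩
  · intro x hx
    have := K_Bd (K_A (R_mem hx))
    exact ⟨this.1, lin_le this⟩
  · intro x hx y hy
    obtain ⟨h1, h2⟩ := R_lip hx hy
    have h3 := lin_le h2.A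
    have h4 := le_lin h1
    rw [map_sub] at h3
    linarith
  · intro ε hε
    obtain ⟨m, hm⟩ := exists_nat_ge (4 / ε ^ 2)
    refine ⟨m + 1, fun n hn x hx => ?_⟩
    obtain ⟨k, rfl⟩ : ∃ k, n = k + 1 := ⟨n - 1, by omega⟩
    have hK := K_A (R_mem hx)
    rw [Function.iterate_succ_apply, Function.iterate_succ_apply, Function.iterate_succ_apply]
    have h1 := (iter hK k).1
    have h2 := (iter hK (k + 1)).1
    rw [Function.iterate_succ_apply] at h2
    rw [h1, h2]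
    refine (lin_le (reg k (ε / 2) (by positivity) (K_Bd hK))).trans ?_
    have hk : (m : ℝ) ≤ k := by exact_mod_cast (by omega : m ≤ k)
    have h3 : 1 / (ε / 2 * (k + 1)) ≤ ε / 2 := by
      rw [div_le_iff₀ (by positivity)]
      rw [div_le_iff₀ (by positivity)] at hm
      nlinarith [sq_nonneg ε]
    linarith
  · intro x hx h
    have hK : x ∈ K := h ▸ K_A (R_mem hx)
    have h1 : A x = x := by
      have h' : A (R x) = x := h
      rwa [R_K hK] at h'
    have h2 : ∀ n, x n = 0 := by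
      intro n
      induction n with
      | zero =>
        have := congrFun h1 0
        rw [A_apply] at this
        simp only [Pi.smul_apply, Pi.add_apply, smul_eq_mul, S_zero] at this
        linarith
      | succ n ih =>
        have := congrFun h1 (n + 1)
        rw [A_apply] at this
        simp only [Pi.smul_apply, Pi.add_apply, smul_eq_mul, S_succ] at this
        linarith
    have h3 := K_N hK
    simp [N, h2] at h3

end Pool.Agent.Results.MP_7b51c2_an.Fails
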