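import Mathlib

set_option autoImplicit false

namespace Pool.Agent.Results.MP_7b51c2_an.FixedPointFree

open Filter Topology

/-- The real space l_1, coordinates indexed from 0. -/
abbrev L1 := lp (fun _ : ℕ => ℝ) 1

/-- Lin's norm: sup over k ≥ 1 of gamma_k times the tail sum from the k-th coordinate
(coordinate number k has index k - 1). -/
noncomputable def linNorm (x : L1) : ℝ :=
  ⨆ k : ℕ, (8 ^ (k + 1) / (1 + 8 ^ (k + 1)) : ℝ) * ∑' n, |x (n + k)|

/-- The distance of Lin's norm. -/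
noncomputable def linDist (x y : L1) : ℝ := linNorm (x - y)

/-- The closed unit ball of Lin's norm. -/
def B : Set L1 := {x | linNorm x ≤ 1}

lemma summ (x : L1) : Summable (fun n => |x n|) := by
  have := (lp.memℓp x).summable (p := 1) (by simp)
  simpa using this

lemma norm_eq (x : L1) : ‖x‖ = ∑' n, |x n| := by
  rw [lp.norm_eq_tsum_rpow (by simp)]; simp

/-- Build an element of l_1. -/
def mk (u : ℕ → ℝ) (h : Summable (fun n => |u n|)) : L1 :=
  ⟨u, memℓp_gen (by simpa using h)⟩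

@[simp] lemma mk_apply (u : ℕ → ℝ) (h : Summable (fun n => |u n|)) (n : ℕ) : mk u h n = u n := rfl

lemma term_le (x : L1) (k : ℕ) :
    (8 ^ (k + 1) / (1 + 8 ^ (k + 1)) : ℝ) * ∑' n, |x (n + k)| ≤ ‖x‖ := by
  have h1 := (summ x).sum_add_tsum_nat_add k
  have h2 : 0 ≤ ∑ i ∈ Finset.range k, |x i| := Finset.sum_nonneg (fun _ _ => abs_nonneg _)
  have h3 : 0 ≤ ∑' n, |x (n + k)| := tsum_nonneg (fun _ => abs_nonneg _)
  have h4 : (8 ^ (k + 1) / (1 + 8 ^ (k + 1)) : ℝ) ≤ 1 := by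
    rw [div_le_one (by positivity)]; linarith
  rw [norm_eq]; nlinarith

lemma linNorm_le (x : L1) : linNorm x ≤ ‖x‖ := ciSup_le (term_le x)

lemma le_linNorm (x : L1) : ‖x‖ ≤ 9 / 8 * linNorm x := by
  have := le_ciSup (f := fun k : ℕ => (8 ^ (k + 1) / (1 + 8 ^ (k + 1)) : ℝ) * ∑' n, |x (n + k)|)
    ⟨‖x‖, by rintro _ ⟨k, rfl⟩; exact term_le x k⟩ 0
  simp only [add_zero, zero_add, pow_one] at this
  rw [norm_eq]; unfold linNorm; linarith

lemma norm_le_of (x : L1) (b : ℕ → ℝ) (c : ℝ) (hb : HasSum b c) (h : ∀ n, |x n| ≤ b n) :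
    ‖x‖ ≤ c := by
  rw [norm_eq]; exact hasSum_le h (summ x).hasSum hb

lemma hasSum_abs (x : L1) : HasSum (fun n => |x n|) ‖x‖ := by
  rw [norm_eq]; exact (summ x).hasSum

/-- weights -/
noncomputable def p (j : ℕ) : ℝ := 1 / 2 / 2 ^ j

lemma p_pos (j : ℕ) : 0 < p j := by unfold p; positivity
lemma p_lt (j : ℕ) : p j < 1 := by
  unfold p
  have : (1 : ℝ) ≤ 2 ^ j := one_le_pow₀ (by norm_num)
  rw [div_lt_one (by positivity)]; linarith
lemma p_sum : HasSum p 1 := hasSum_geometric_two' 1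

/-- partial sums -/
def F (x : L1) (j : ℕ) : ℝ := ∑ i ∈ Finset.range j, x i

lemma abs_F (x : L1) (j : ℕ) : |F x j| ≤ ‖x‖ :=
  (Finset.abs_sum_le_sum_abs _ _).trans
    (sum_le_hasSum _ (fun _ _ => abs_nonneg _) (hasSum_abs x))

lemma A_bound (x : L1) (j : ℕ) : |x j * (1 - p j) + p j * F x j| ≤ |x j| + p j * ‖x‖ := by
  have h1 := p_pos j
  have h2 := p_lt j
  refine (abs_add_le _ _).trans (add_le_add ?_ ?_)
  · rw [abs_mul, abs_of_pos (by linarith : 0 < 1 - p j)]
    nlinarith [abs_nonneg (x j)]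
  · rw [abs_mul, abs_of_pos h1]; gcongr; exact abs_F x j

/-- The Markov operator. -/
noncomputable def A (x : L1) : L1 :=
  mk (fun j => x j * (1 - p j) + p j * F x j)
    (Summable.of_nonneg_of_le (fun _ => abs_nonneg _) (A_bound x)
      ((summ x).add (p_sum.summable.mul_right _)))

lemma A_apply (x : L1) (j : ℕ) : A x j = x j * (1 - p j) + p j * F x j := rfl

lemma A_lip (x y : L1) : ‖A x - A y‖ ≤ 2 * ‖x - y‖ := by
  have h := (hasSum_abs (x - y)).add (p_sum.mul_right ‖x - y‖)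
  rw [one_mul, ← two_mul] at h
  refine norm_le_of _ _ _ h (fun j => ?_)
  refine le_trans (le_of_eq ?_) (A_bound (x - y) j)
  congr 1
  simp only [lp.coeFn_sub, Pi.sub_apply, A_apply, F, Finset.sum_sub_distrib]; ring

lemma F_A (x : L1) (j : ℕ) : F (A x) (j + 1) = F x (j + 1) * (1 - p j) := by
  induction j with
  | zero => simp [F, A_apply]
  | succ j ih =>
    have h1 : F (A x) (j + 1 + 1) = F (A x) (j + 1) + A x (j + 1) := Finset.sum_range_succ _ _
    have h2 : F x (j + 1 + 1) = F x (j + 1) + x (j + 1) := Finset.sum_range_succ _ _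
    have h3 : p j = 2 * p (j + 1) := by unfold p; rw [pow_succ]; field_simp
    rw [h1, h2, ih, A_apply, h3]; ring

/-- The simplex. -/
def K : Set L1 := {x | (∀ n, 0 ≤ x n) ∧ ‖x‖ = 1}

lemma tendsto_F (x : L1) (hx : ∀ n, 0 ≤ x n) : Tendsto (fun j => F x (j + 1)) atTop (𝓝 ‖x‖) := by
  have := (hasSum_abs x).tendsto_sum_nat
  simp only [abs_of_nonneg (hx _)] at this
  exact (tendsto_add_atTop_iff_nat 1).2 this

lemma A_mem (x : L1) (hx : x ∈ K) : A x ∈ K := by
  have h0 : ∀ n, 0 ≤ A x n := by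
    intro n
    have h1 := p_pos n
    have h2 : 0 < 1 - p n := by linarith [p_lt n]
    have h3 := hx.1 n
    have h4 : 0 ≤ F x n := Finset.sum_nonneg (fun i _ => hx.1 i)
    rw [A_apply]; positivity
  refine ⟨h0, tendsto_nhds_unique (tendsto_F _ h0) ?_⟩
  simp only [F_A]
  have := (tendsto_F x hx.1).mul (tendsto_const_nhds (x := (1 : ℝ)).sub
    p_sum.summable.tendsto_atTop_zero)
  simpa [hx.2] using this

lemma A_nofix (x : L1) (hx : x ∈ K) : A x ≠ x := by
  intro h
  have h1 : ∀ j, F x (j + 1) = 0 := by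
    intro j
    have := F_A x j
    rw [h] at this
    have h2 : F x (j + 1) * p j = 0 := by linarith
    exact (mul_eq_zero.1 h2).resolve_right (p_pos j).ne'
  have := tendsto_F x hx.1
  simp only [h1, hx.2] at this
  exact zero_ne_one (tendsto_nhds_unique tendsto_const_nhds this)

lemma iter (x : L1) (hx : x ∈ K) (n : ℕ) :
    A^[n] x ∈ K ∧ ∀ j, F (A^[n] x) (j + 1) ≤ (1 - p j) ^ n := by
  induction n with
  | zero => exact ⟨hx, fun j => by simpa [hx.2] using (le_abs_self _).trans (abs_F x (j + 1))⟩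
  | succ n ih =>
    rw [Function.iterate_succ_apply']
    refine ⟨A_mem _ ih.1, fun j => ?_⟩
    rw [F_A, pow_succ]
    have : 0 < 1 - p j := by linarith [p_lt j]
    gcongr; exact ih.2 j

lemma summ_c (n : ℕ) : Summable (fun j => p j * (1 - p j) ^ n) := by
  refine Summable.of_nonneg_of_le (fun j => ?_) (fun j => ?_) p_sum.summable
  · have := p_pos j
    have : 0 < 1 - p j := by linarith [p_lt j]
    positivity
  · exact mul_le_of_le_one_right (p_pos j).le
      (pow_le_one₀ (by linarith [p_lt j]) (by linarith [p_pos j]))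

lemma diff_le (x : L1) (hx : x ∈ K) (n : ℕ) :
    ‖A^[n] x - A^[n + 1] x‖ ≤ ∑' j, p j * (1 - p j) ^ n := by
  refine norm_le_of _ _ _ (summ_c n).hasSum (fun j => ?_)
  obtain ⟨h1, h2⟩ := iter x hx n
  rw [Function.iterate_succ_apply']
  set u := A^[n] x
  have h3 : (u - A u) j = p j * (u j - F u j) := by
    simp only [lp.coeFn_sub, Pi.sub_apply, A_apply]; ring
  have h4 : F u (j + 1) = F u j + u j := Finset.sum_range_succ _ _
  have h5 : 0 ≤ F u j := Finset.sum_nonneg (fun i _ => h1.1 i)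
  have h6 := h1.1 j
  have h7 := h2 j
  rw [h3, abs_mul, abs_of_pos (p_pos j)]
  have := p_pos j
  gcongr
  rw [abs_le]; constructor <;> linarith

lemma c_tendsto : Tendsto (fun n : ℕ => ∑' j, p j * (1 - p j) ^ n) atTop (𝓝 0) := by
  have := tendsto_tsum_of_dominated_convergence (𝓕 := atTop)
    (f := fun (n : ℕ) j => p j * (1 - p j) ^ n) (g := fun _ => 0) p_sum.summable
    (fun j => by
      have := (tendsto_pow_atTop_nhds_zero_of_lt_one (r := 1 - p j) (by linarith [p_lt j])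
        (by linarith [p_pos j])).const_mul (p j)
      simpa using this)
    (Eventually.of_forall (fun n j => by
      have := p_pos j
      have : 0 < 1 - p j := by linarith [p_lt j]
      rw [Real.norm_eq_abs, abs_of_pos (by positivity)]
      exact mul_le_of_le_one_right (p_pos j).le
        (pow_le_one₀ (by linarith [p_lt j]) (by linarith [p_pos j]))))
  simpa using this

lemma hasSum_R (x : L1) : HasSum (fun j => |x j| / max 1 ‖x‖ +
    if j = 0 then max (1 - ‖x‖) 0 else 0) 1 := by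
  have h := ((hasSum_abs x).div_const (max 1 ‖x‖)).add
    (hasSum_ite_eq 0 (max (1 - ‖x‖) 0))
  have : ‖x‖ / max 1 ‖x‖ + max (1 - ‖x‖) 0 = 1 := by
    rcases le_total 1 ‖x‖ with h | h
    · rw [max_eq_right h, max_eq_right (by linarith), div_self (by linarith), add_zero]
    · rw [max_eq_left h, max_eq_left (by linarith)]; ring
  rwa [this] at h

/-- The retraction onto the simplex. -/
noncomputable def R (x : L1) : L1 :=
  mk (fun j => |x j| / max 1 ‖x‖ + if j = 0 then max (1 - ‖x‖) 0 else 0) (hasSum_R x).summable.abs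

lemma R_apply (x : L1) (j : ℕ) :
    R x j = |x j| / max 1 ‖x‖ + if j = 0 then max (1 - ‖x‖) 0 else 0 := rfl

lemma R_mem (x : L1) : R x ∈ K := by
  have h0 : ∀ n, 0 ≤ R x n := by
    intro n; rw [R_apply]; split_ifs <;> positivity
  refine ⟨h0, (hasSum_abs _).unique ?_⟩
  simp only [abs_of_nonneg (h0 _)]
  exact hasSum_R x

lemma R_id (x : L1) (hx : x ∈ K) : R x = x := by
  ext j; rw [R_apply, hx.2, abs_of_nonneg (hx.1 j)]; simp

lemma R_lip (x y : L1) : ‖R x - R y‖ ≤ 3 * ‖x - y‖ := by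
  have hmx : 1 ≤ max 1 ‖x‖ := le_max_left _ _
  have hmy : 1 ≤ max 1 ‖y‖ := le_max_left _ _
  have hd := abs_norm_sub_norm_le x y
  have hm : |max 1 ‖x‖ - max 1 ‖y‖| ≤ ‖x - y‖ := by
    rw [max_comm 1, max_comm 1]; exact (abs_max_sub_max_le_abs _ _ _).trans hd
  have hm2 : |max (1 - ‖x‖) 0 - max (1 - ‖y‖) 0| ≤ ‖x - y‖ := by
    refine (abs_max_sub_max_le_abs _ _ _).trans ?_
    rw [abs_sub_comm] at hd
    rwa [show 1 - ‖x‖ - (1 - ‖y‖) = ‖y‖ - ‖x‖ by ring]
  have h := ((hasSum_abs (x - y)).add (((hasSum_abs y).div_const (max 1 ‖y‖)).mul_right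
    ‖x - y‖)).add (hasSum_ite_eq 0 ‖x - y‖)
  refine (norm_le_of _ _ _ h (fun j => ?_)).trans ?_
  · simp only [lp.coeFn_sub, Pi.sub_apply, R_apply]
    have e : |x j| / max 1 ‖x‖ - |y j| / max 1 ‖y‖ = (|x j| - |y j|) / max 1 ‖x‖
        - |y j| / max 1 ‖y‖ * ((max 1 ‖x‖ - max 1 ‖y‖) / max 1 ‖x‖) := by
      field_simp; ring
    have b1 : |(|x j| - |y j|) / max 1 ‖x‖| ≤ |x j - y j| := by
      rw [abs_div, abs_of_pos (by linarith : 0 < max 1 ‖x‖)]
      exact (div_le_self (abs_nonneg _) hmx).trans (abs_abs_sub_abs_le_abs_sub _ _)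
    have b2 : |(|y j| / max 1 ‖y‖ * ((max 1 ‖x‖ - max 1 ‖y‖) / max 1 ‖x‖))|
        ≤ |y j| / max 1 ‖y‖ * ‖x - y‖ := by
      rw [abs_mul, abs_of_nonneg (by positivity), abs_div,
        abs_of_pos (by linarith : 0 < max 1 ‖x‖)]
      gcongr
      exact (div_le_self (abs_nonneg _) hmx).trans hm
    have b3 := abs_le.1 ((abs_sub _ _).trans (add_le_add b1 b2))
    rw [← e] at b3
    have b4 := abs_le.1 hm2
    split_ifs <;> rw [abs_le] <;> constructor <;> linarith [b3.1, b3.2, b4.1, b4.2]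
  · have : ‖y‖ / max 1 ‖y‖ ≤ 1 := by rw [div_le_one (by linarith)]; exact le_max_right _ _
    nlinarith [norm_nonneg (x - y)]

theorem result : ∃ T : L1 → L1, Set.MapsTo T B B ∧
    (∃ L : ℝ, ∀ x ∈ B, ∀ y ∈ B, linDist (T x) (T y) ≤ L * linDist x y) ∧
    (∀ ε > 0, ∃ N : ℕ, ∀ n ≥ N, ∀ x ∈ B, linDist (T^[n] x) (T^[n + 1] x) ≤ ε) ∧
    ∀ x ∈ B, T x ≠ x := by
  unfold linDist
  have hit : ∀ x n, (fun x => A (R x))^[n + 1] x = A^[n + 1] (R x) := by
    intro x n
    induction n with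
    | zero => rfl
    | succ n ih =>
      rw [Function.iterate_succ_apply', ih, R_id _ (iter _ (R_mem x) _).1,
        Function.iterate_succ_apply' A (n + 1)]
  refine ⟨fun x => A (R x), fun x _ => (linNorm_le _).trans (A_mem _ (R_mem x)).2.le,
    ⟨2 * (3 * (9 / 8)), fun x _ y _ => ?_⟩, fun ε hε => ?_, fun x _ h => ?_⟩
  · linarith [linNorm_le (A (R x) - A (R y)), A_lip (R x) (R y), R_lip x y, le_linNorm (x - y)]
  · obtain ⟨N, hN⟩ := eventually_atTop.1 (c_tendsto.eventually (ge_mem_nhds hε))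
    refine ⟨N + 1, fun n hn x _ => ?_⟩
    obtain ⟨m, rfl⟩ : ∃ m, n = m + 1 := ⟨n - 1, by omega⟩
    rw [hit, hit]
    exact (linNorm_le _).trans ((diff_le _ (R_mem x) _).trans (hN _ (by omega)))
  · have hx : x ∈ K := h ▸ A_mem _ (R_mem x)
    simp only [R_id x hx] at h
    exact A_nofix x hx h

end Pool.Agent.Results.MP_7b51c2_an.FixedPointFree
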